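import Pool.Agent.H.MP_afa6c5_al.Z

set_option autoImplicit false

namespace Pool.Agent.Results.MP_afa6c5_al.Exists

/-- the total order is invariant under multiplication on both sides -/
def BiInv {G : Type} [Group G] (o : LinearOrder G) : Prop :=
  ∀ a b c : G, o.le a b → o.le (c * a) (c * b) ∧ o.le (a * c) (b * c)

/-- convex for at least one bi-invariant total order -/
def RelConvex {G : Type} [Group G] (H : Subgroup G) : Prop :=
  ∃ o : LinearOrder G, BiInv o ∧ ∀ h₁ ∈ H, ∀ h₂ ∈ H, ∀ g, o.le h₁ g → o.le g h₂ → g ∈ H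

open Pool.Agent.H.MP_afa6c5_al in
theorem result (n : ℕ) (hn : 4 < n) :
    ∃ (G : Type) (_ : Group G), (∃ o : LinearOrder G, BiInv o) ∧
      derivedSeries G n = ⊥ ∧ derivedSeries G (n - 1) ≠ ⊥ ∧
      ∃! H : Subgroup G, H ≠ ⊥ ∧ H ≠ ⊤ ∧ H.Normal ∧ RelConvex H := by
  obtain ⟨s, rfl⟩ : ∃ s, n = s + 4 := ⟨n - 4, by omega⟩
  obtain ⟨K, _, ⟨P, hP⟩, h1, h2, H, h3, h4, h5, ⟨P', hP', hc⟩, h6⟩ := main s
  obtain ⟨o, ho, -⟩ := order_of_RC hP
  obtain ⟨o', ho', e⟩ := order_of_RC hP'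
  refine ⟨K, inferInstance, ⟨o, ho⟩, h1, h2, H, ⟨h3, h4, h5, o', ho', ?_⟩, ?_⟩
  · intro a ha b hb g g1 g2
    rw [e] at g1 g2
    rcases g1 with rfl | g1
    · exact ha
    rcases g2 with rfl | g2
    · exact hb
    have := hc (a⁻¹ * g) (a⁻¹ * b) (mul_mem (inv_mem ha) hb) g1 (by simpa [mul_assoc] using g2)
    simpa using mul_mem ha this
  · rintro L ⟨l1, l2, l3, o2, l4, l5⟩
    exact h6 L l1 l2 l3 ⟨_, RC_of_order o2 l4 L l3 l5⟩

end Pool.Agent.Results.MP_afa6c5_al.Exists
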